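import Mathlib

set_option autoImplicit false

namespace Pool.Agent.Results.MP_df3d6f_co.SqrtBounds

open Finset


/-- Two chords `p = (p.1, p.2)`, `q = (q.1, q.2)` (each with smaller endpoint first) interleave. -/
def X (p q : ℕ × ℕ) : Prop :=
  (p.1 < q.1 ∧ q.1 < p.2 ∧ p.2 < q.2) ∨ (q.1 < p.1 ∧ p.1 < q.2 ∧ q.2 < p.2)

instance (p q : ℕ × ℕ) : Decidable (X p q) := by unfold X; infer_instance

/-- number of points of `V` strictly between the endpoints -/
def upIc (V : Finset ℕ) (p : ℕ × ℕ) : ℕ := (V.filter (fun v => p.1 < v ∧ v < p.2)).card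

theorem upIc_inj {V : Finset ℕ} {p q : ℕ × ℕ} (hp : p.1 < p.2) (hp2 : p.2 ∈ V) (hq : q.1 < q.2)
    (hq2 : q.2 ∈ V) (h1 : p.1 = q.1) (h2 : upIc V p = upIc V q) : p = q := by
  have key : ∀ p q : ℕ × ℕ, p.1 < p.2 → p.2 ∈ V → p.1 = q.1 → p.2 < q.2 →
      upIc V p < upIc V q := by
    intro p q hp hp2 h1 h
    apply Finset.card_lt_card
    rw [Finset.ssubset_iff_of_subset]
    · refine ⟨p.2, ?_, ?_⟩
      · rw [Finset.mem_filter]
        exact ⟨hp2, by omega, h⟩
      · rw [Finset.mem_filter]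
        omega
    · intro v hv
      simp only [Finset.mem_filter] at hv ⊢
      exact ⟨hv.1, by omega, by omega⟩
  rcases lt_trichotomy p.2 q.2 with h | h | h
  · have := key p q hp hp2 h1 h
    omega
  · exact Prod.ext h1 h
  · have := key q p hq hq2 h1.symm h
    omega

theorem up_sum (a : ℕ) : ∀ s, s ≤ a + 1 →
    2 * ∑ j ∈ Finset.range s, (a + 1 - j) + s * s = 2 * s * (a + 1) + s := by
  intro s
  induction s with
  | zero => intro _; simp
  | succ s ih =>
    intro h
    have h1 := ih (by omega)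
    rw [Finset.sum_range_succ]
    obtain ⟨c, hc⟩ : ∃ c, a + 1 = s + c := ⟨a + 1 - s, by omega⟩
    have h2 : a + 1 - s = c := by omega
    rw [h2]
    nlinarith

theorem up_rank {W : Finset ℕ} {u v : ℕ} (hu : u ∈ W) (hv : v ∈ W)
    (h : (W.filter (fun w => w < u)).card = (W.filter (fun w => w < v)).card) : u = v := by
  have key : ∀ u v : ℕ, u ∈ W → u < v →
      (W.filter (fun w => w < u)).card < (W.filter (fun w => w < v)).card := by
    intro u v hu huv
    apply Finset.card_lt_card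
    rw [Finset.ssubset_iff_of_subset]
    · refine ⟨u, ?_, ?_⟩
      · rw [Finset.mem_filter]
        exact ⟨hu, huv⟩
      · rw [Finset.mem_filter]
        omega
    · intro w hw
      simp only [Finset.mem_filter] at hw ⊢
      exact ⟨hw.1, by omega⟩
  rcases lt_trichotomy u v with h' | h' | h'
  · have := key u v hu h'
    omega
  · exact h'
  · have := key v u hv h'
    omega

theorem upper (t k : ℕ) (ht : 1 ≤ t) (htk : t * t ≤ 3 * t + 2 * k) :
    ∀ (V : Finset ℕ) (E : Finset (ℕ × ℕ)),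
      (∀ p ∈ E, p.1 < p.2 ∧ p.1 ∈ V ∧ p.2 ∈ V) →
      (∀ p ∈ E, (E.filter (fun q => X p q)).card ≤ k) →
      2 * t * E.card ≤ (t * t + 3 * t + 2 * k) * V.card := by
  intro V
  induction V using Finset.strongInduction with
  | H V ih =>
  intro E hE hk
  by_cases hA : ∀ p ∈ E, upIc V p < t
  · have h1 : E.card ≤ (V ×ˢ Finset.range t).card := by
      apply Finset.card_le_card_of_injOn (fun p => (p.1, upIc V p))
      · intro p hp
        rw [Finset.mem_coe] at hp
        rw [Finset.mem_coe, Finset.mem_product]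
        exact ⟨(hE p hp).2.1, Finset.mem_range.2 (hA p hp)⟩
      · intro p hp q hq hpq
        rw [Finset.mem_coe] at hp hq
        simp only [Prod.mk.injEq] at hpq
        exact upIc_inj (hE p hp).1 (hE p hp).2.2 (hE q hq).1 (hE q hq).2.2 hpq.1 hpq.2
    rw [Finset.card_product, Finset.card_range] at h1
    have h2 : t * t * V.card ≤ (3 * t + 2 * k) * V.card := Nat.mul_le_mul_right _ htk
    have h3 : 2 * t * E.card ≤ 2 * t * (V.card * t) := Nat.mul_le_mul_left _ h1
    nlinarith
  · push Not at hA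
    obtain ⟨p0, hp0, hp0t⟩ := hA
    obtain ⟨p, hp, hmin⟩ := Finset.exists_min_image (E.filter (fun p => t ≤ upIc V p)) (upIc V)
      ⟨p0, Finset.mem_filter.2 ⟨hp0, hp0t⟩⟩
    rw [Finset.mem_filter] at hp
    obtain ⟨hpE, hpt⟩ := hp
    have hpE' := hE p hpE
    set A := V.filter (fun v => p.1 < v ∧ v < p.2) with hAdef
    have ha : upIc V p = A.card := rfl
    set a := A.card with hadef
    rw [ha] at hpt
    -- induction hypothesis
    set E' := E.filter (fun q => q.1 ∉ A ∧ q.2 ∉ A) with hE'def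
    have hAV : A ⊆ V := Finset.filter_subset _ _
    have hss : V \ A ⊂ V := by
      apply Finset.sdiff_ssubset hAV
      rw [← Finset.card_pos]
      omega
    have hih := ih (V \ A) hss E' (by
      intro q hq
      rw [hE'def, Finset.mem_filter] at hq
      obtain ⟨h1, h2, h3⟩ := hE q hq.1
      exact ⟨h1, Finset.mem_sdiff.2 ⟨h2, hq.2.1⟩, Finset.mem_sdiff.2 ⟨h3, hq.2.2⟩⟩) (by
      intro q hq
      rw [hE'def, Finset.mem_filter] at hq
      refine le_trans (Finset.card_le_card ?_) (hk q hq.1)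
      intro r hr
      rw [Finset.mem_filter] at hr ⊢
      exact ⟨(Finset.mem_filter.1 hr.1).1, hr.2⟩)
    have hcV : (V \ A).card = V.card - a := Finset.card_sdiff_of_subset hAV
    have haV : a ≤ V.card := Finset.card_le_card hAV
    rw [hcV] at hih
    -- the other edges
    set R := E.filter (fun q => (p.1 ≤ q.1 ∧ q.2 ≤ p.2) ∧ q ≠ p) with hRdef
    have hsub : E ⊆ E' ∪ (E.filter (fun q => X p q) ∪ R) := by
      intro q hq
      obtain ⟨h1, h2, h3⟩ := hE q hq
      simp only [Finset.mem_union, hE'def, hRdef, Finset.mem_filter]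
      by_cases hq1 : q.1 ∈ A
      · have h4 := (Finset.mem_filter.1 hq1).2
        right
        by_cases h5 : q.2 ≤ p.2
        · right
          refine ⟨hq, ⟨by omega, h5⟩, ?_⟩
          intro h
          rw [h] at h4
          omega
        · left
          refine ⟨hq, Or.inl ⟨by omega, by omega, by omega⟩⟩
      · by_cases hq2 : q.2 ∈ A
        · have h4 := (Finset.mem_filter.1 hq2).2
          right
          by_cases h5 : p.1 ≤ q.1
          · right
            refine ⟨hq, ⟨h5, by omega⟩, ?_⟩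
            intro h
            rw [h] at h4
            omega
          · left
            refine ⟨hq, Or.inr ⟨by omega, by omega, by omega⟩⟩
        · left
          exact ⟨hq, hq1, hq2⟩
    have hcE : E.card ≤ E'.card + (k + R.card) := by
      refine (Finset.card_le_card hsub).trans ((Finset.card_union_le _ _).trans ?_)
      apply Nat.add_le_add_left
      refine (Finset.card_union_le _ _).trans ?_
      exact Nat.add_le_add_right (hk p hpE) _
    -- count `R`
    have hRt : ∀ q ∈ R, upIc V q < t := by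
      intro q hq
      rw [hRdef, Finset.mem_filter] at hq
      obtain ⟨hqE, ⟨hq1, hq2⟩, hqp⟩ := hq
      obtain ⟨h1, h2, h3⟩ := hE q hqE
      have hlt : upIc V q < upIc V p := by
        apply Finset.card_lt_card
        rw [Finset.ssubset_iff_of_subset]
        · by_cases h4 : q.1 = p.1
          · refine ⟨q.2, ?_, ?_⟩
            · have h5 : q.2 ≠ p.2 := fun h5 => hqp (Prod.ext h4 h5)
              rw [Finset.mem_filter]
              exact ⟨h3, by omega, by omega⟩
            · rw [Finset.mem_filter]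
              omega
          · refine ⟨q.1, ?_, ?_⟩
            · rw [Finset.mem_filter]
              exact ⟨h2, by omega, by omega⟩
            · rw [Finset.mem_filter]
              omega
        · intro v hv
          simp only [Finset.mem_filter] at hv ⊢
          exact ⟨hv.1, by omega, by omega⟩
      by_contra hc
      rw [not_lt] at hc
      have := hmin q (Finset.mem_filter.2 ⟨hqE, hc⟩)
      omega
    set W := V.filter (fun v => p.1 ≤ v ∧ v ≤ p.2) with hWdef
    have hWc : W.card = a + 2 := by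
      have h1 : W = insert p.1 (insert p.2 A) := by
        ext v
        simp only [hWdef, hAdef, Finset.mem_insert, Finset.mem_filter]
        constructor
        · rintro ⟨h1, h2, h3⟩
          by_cases h4 : v = p.1
          · exact Or.inl h4
          · by_cases h5 : v = p.2
            · exact Or.inr (Or.inl h5)
            · exact Or.inr (Or.inr ⟨h1, by omega, by omega⟩)
        · rintro (h | h | h)
          · rw [h]
            exact ⟨hpE'.2.1, le_rfl, hpE'.1.le⟩
          · rw [h]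
            exact ⟨hpE'.2.2, hpE'.1.le, le_rfl⟩
          · exact ⟨h.1, h.2.1.le, h.2.2.le⟩
      rw [h1, Finset.card_insert_of_notMem, Finset.card_insert_of_notMem]
      · rw [hAdef, Finset.mem_filter]
        omega
      · rw [Finset.mem_insert, hAdef, Finset.mem_filter]
        omega
    have hRc : R.card ≤ ∑ j ∈ Finset.range t, (a + 1 - j) := by
      rw [Finset.card_eq_sum_card_fiberwise (f := upIc V) (t := Finset.range t)
        (fun q hq => Finset.mem_coe.2 (Finset.mem_range.2 (hRt q (Finset.mem_coe.1 hq))))]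
      apply Finset.sum_le_sum
      intro j hj
      rw [← Finset.card_range (a + 1 - j)]
      apply Finset.card_le_card_of_injOn (fun q => (W.filter (fun w => w < q.1)).card)
      · intro q hq
        rw [Finset.mem_coe, Finset.mem_filter] at hq
        obtain ⟨hqR, hqj⟩ := hq
        rw [hRdef, Finset.mem_filter] at hqR
        obtain ⟨hqE, ⟨hq1, hq2⟩, hqp⟩ := hqR
        obtain ⟨h1, h2, h3⟩ := hE q hqE
        rw [Finset.mem_coe, Finset.mem_range]
        change (W.filter (fun w => w < q.1)).card < a + 1 - j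
        have h4 : insert q.1 (insert q.2 (W.filter (fun w => w < q.1) ∪
            V.filter (fun v => q.1 < v ∧ v < q.2))) ⊆ W := by
          intro v hv
          simp only [Finset.mem_insert, Finset.mem_union, Finset.mem_filter] at hv
          rcases hv with hv | hv | hv | hv
          · rw [hv, hWdef, Finset.mem_filter]
            exact ⟨h2, hq1, by omega⟩
          · rw [hv, hWdef, Finset.mem_filter]
            exact ⟨h3, by omega, hq2⟩
          · exact hv.1
          · rw [hWdef, Finset.mem_filter]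
            exact ⟨hv.1, by omega, by omega⟩
        have h5 := Finset.card_le_card h4
        rw [Finset.card_insert_of_notMem, Finset.card_insert_of_notMem,
          Finset.card_union_of_disjoint, hWc] at h5
        · have h6 : (V.filter (fun v => q.1 < v ∧ v < q.2)).card = j := hqj
          omega
        · rw [Finset.disjoint_left]
          intro v hv hv'
          rw [Finset.mem_filter] at hv hv'
          omega
        · intro hm
          rcases Finset.mem_union.1 hm with h | h
          · have := (Finset.mem_filter.1 h).2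
            omega
          · have := (Finset.mem_filter.1 h).2
            omega
        · intro hm
          rcases Finset.mem_insert.1 hm with h | hm
          · omega
          rcases Finset.mem_union.1 hm with h | h
          · have := (Finset.mem_filter.1 h).2
            omega
          · have := (Finset.mem_filter.1 h).2
            omega
      · intro q hq r hr hqr
        rw [Finset.mem_coe, Finset.mem_filter] at hq hr
        obtain ⟨hqR, hqj⟩ := hq
        obtain ⟨hrR, hrj⟩ := hr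
        rw [hRdef, Finset.mem_filter] at hqR hrR
        obtain ⟨hqE, ⟨hq1, hq2⟩, hqp⟩ := hqR
        obtain ⟨hrE, ⟨hr1, hr2⟩, hrp⟩ := hrR
        obtain ⟨h1, h2, h3⟩ := hE q hqE
        obtain ⟨g1, g2, g3⟩ := hE r hrE
        have hqW : q.1 ∈ W := by
          rw [hWdef, Finset.mem_filter]
          exact ⟨h2, hq1, by omega⟩
        have hrW : r.1 ∈ W := by
          rw [hWdef, Finset.mem_filter]
          exact ⟨g2, hr1, by omega⟩
        exact upIc_inj h1 h3 g1 g3 (up_rank hqW hrW hqr) (hqj.trans hrj.symm)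
    have hs := up_sum a t (by omega)
    have h2R : 2 * R.card + t * t ≤ 2 * t * (a + 1) + t := by omega
    obtain ⟨c, hc⟩ : ∃ c, a = t + c := ⟨a - t, by omega⟩
    obtain ⟨d, hd⟩ : ∃ d, V.card = a + d := ⟨V.card - a, by omega⟩
    obtain ⟨e, he⟩ : ∃ e, 3 * t + 2 * k = t * t + e := ⟨3 * t + 2 * k - t * t, by omega⟩
    rw [hd, Nat.add_sub_cancel_left] at hih
    rw [hd]
    have h3 : 2 * t * E.card ≤ 2 * t * (E'.card + (k + R.card)) := Nat.mul_le_mul_left _ hcE
    have h4 : t * (2 * R.card + t * t) ≤ t * (2 * t * (a + 1) + t) := Nat.mul_le_mul_left _ h2R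
    have h5 : t * t * t + 2 * (t * t) * (a + 1) + t * t + 2 * t * k ≤
        (t * t + 3 * t + 2 * k) * a + t * t * t + t * t * t := by
      have h6 : (t * t + 3 * t + 2 * k) * a = (2 * (t * t) + e) * a := by
        rw [add_assoc, he]
        ring
      have h7 : t * (3 * t + 2 * k) = t * (t * t + e) := by rw [he]
      have h8 : e * t ≤ e * a := Nat.mul_le_mul_left _ (by omega)
      rw [h6]
      nlinarith
    nlinarith



/-- Ladder-type graph on `0, …, n-1`. -/
def lad (n a : ℕ) : Finset (ℕ × ℕ) :=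
  (range n ×ˢ range n).filter (fun p => p.1 < p.2 ∧
    (p.2 ≤ p.1 + a ∨ (n ≤ p.1 + p.2 + 1 + a ∧ p.1 + p.2 + 1 ≤ n + a)))

/-- triangle of pairs -/
def lad_cross_Tri (m : ℕ) : Finset (Σ _ : ℕ, ℕ) := (range m).sigma (fun i => range (m - 1 - i))

theorem lad_cross_Tri_card (m : ℕ) : 2 * (lad_cross_Tri m).card + m = m * m := by
  unfold lad_cross_Tri
  rw [card_sigma]
  simp only [card_range]
  rw [Finset.sum_range_reflect (fun i => i) m]
  have h := Finset.sum_range_id_mul_two m
  rcases Nat.eq_zero_or_pos m with h0 | h0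
  · subst h0; simp
  · obtain ⟨k, rfl⟩ : ∃ k, m = k + 1 := ⟨m - 1, by omega⟩
    simp only [Nat.add_sub_cancel] at h
    nlinarith

theorem lad_cross_mem (m i j : ℕ) (h : i + j + 2 ≤ m) :
    (⟨i, j⟩ : Σ _ : ℕ, ℕ) ∈ lad_cross_Tri m := by
  unfold lad_cross_Tri
  rw [mem_sigma, mem_range, mem_range]
  dsimp only
  omega

theorem lad_cross_S (n a : ℕ) (ha : 1 ≤ a) (p : ℕ × ℕ) (h12 : p.1 < p.2) (hS : p.2 ≤ p.1 + a) :
    ((lad n a).filter (fun q => X p q)).card + 2 * a ≤ 3 * a * a := by
  set Z : ℕ → Finset ℕ := fun x => (Icc (x - a) (x + a) \ Icc p.1 p.2) ∪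
    Icc (n - (x + 1 + a)) (n + a - (x + 1)) with hZ
  set φ : ℕ × ℕ → (Σ _ : ℕ, ℕ) := fun q => if p.1 < q.1 ∧ q.1 < p.2 then ⟨q.1, q.2⟩ else ⟨q.2, q.1⟩
    with hφ
  have h1 : ((lad n a).filter (fun q => X p q)).card ≤ ((Ioo p.1 p.2).sigma Z).card := by
    apply card_le_card_of_injOn φ
    · intro q hq
      rw [mem_coe, mem_filter] at hq
      obtain ⟨hq1, hq2⟩ := hq
      simp only [lad, mem_filter, mem_product, mem_range] at hq1
      obtain ⟨⟨hn1, hn2⟩, hlt, hor⟩ := hq1
      rw [mem_coe, mem_sigma, hφ]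
      simp only [hZ, mem_Ioo, mem_union, mem_sdiff, mem_Icc]
      unfold X at hq2
      rcases hq2 with ⟨e1, e2, e3⟩ | ⟨e1, e2, e3⟩
      · rw [if_pos ⟨e1, e2⟩]
        dsimp only
        refine ⟨⟨e1, e2⟩, ?_⟩
        rcases hor with h | ⟨h, h'⟩
        · left
          omega
        · right
          omega
      · rw [if_neg (by omega)]
        dsimp only
        refine ⟨⟨e2, e3⟩, ?_⟩
        rcases hor with h | ⟨h, h'⟩
        · left
          omega
        · right
          omega
    · intro q hq q' hq' heq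
      rw [mem_coe, mem_filter] at hq hq'
      have hlt : q.1 < q.2 := by
        have := hq.1
        simp only [lad, mem_filter] at this
        exact this.2.1
      have hlt' : q'.1 < q'.2 := by
        have := hq'.1
        simp only [lad, mem_filter] at this
        exact this.2.1
      simp only [hφ] at heq
      split_ifs at heq with c1 c2 c2
      all_goals
        rw [Sigma.mk.injEq] at heq
        obtain ⟨e1, e2⟩ := heq
        have e2' := eq_of_heq e2
        apply Prod.ext <;> omega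
  have h2 : ∀ x ∈ Ioo p.1 p.2, (Z x).card ≤ 4 * a + 1 - (p.2 - p.1) := by
    intro x hx
    rw [mem_Ioo] at hx
    have hsub : Icc p.1 p.2 ⊆ Icc (x - a) (x + a) := by
      intro z hz
      rw [mem_Icc] at hz ⊢
      omega
    have e1 : (Icc (x - a) (x + a) \ Icc p.1 p.2).card ≤ 2 * a - (p.2 - p.1) := by
      rw [card_sdiff_of_subset hsub, Nat.card_Icc, Nat.card_Icc]
      omega
    have e2 : (Icc (n - (x + 1 + a)) (n + a - (x + 1))).card ≤ 2 * a + 1 := by
      rw [Nat.card_Icc]
      omega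
    calc (Z x).card ≤ _ + _ := card_union_le _ _
      _ ≤ (2 * a - (p.2 - p.1)) + (2 * a + 1) := by gcongr
      _ ≤ 4 * a + 1 - (p.2 - p.1) := by omega
  have h3 : ((Ioo p.1 p.2).sigma Z).card ≤ (p.2 - p.1 - 1) * (4 * a + 1 - (p.2 - p.1)) := by
    rw [card_sigma]
    refine (Finset.sum_le_card_nsmul _ _ _ h2).trans ?_
    rw [Nat.card_Ioo, smul_eq_mul]
  obtain ⟨k, hk⟩ : ∃ k, p.2 - p.1 + k = a := ⟨a - (p.2 - p.1), by omega⟩
  obtain ⟨l, hl⟩ : ∃ l, p.2 - p.1 = l + 1 := ⟨p.2 - p.1 - 1, by omega⟩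
  rw [hl] at hk h3
  have h4 : 4 * a + 1 - (l + 1) = 4 * a - l := by omega
  have h5 : l + 1 - 1 = l := by omega
  rw [h4, h5] at h3
  have h6 : l * (4 * a - l) + 2 * a ≤ 3 * a * a := by
    obtain ⟨s, hs⟩ : ∃ s, 4 * a - l = s ∧ s + l = 4 * a := ⟨4 * a - l, rfl, by omega⟩
    rw [hs.1]
    have hs2 : s = 4 * a - l := hs.1.symm
    have : s = 3 * a + 1 + k := by omega
    subst this
    have hak : a = l + 1 + k := by omega
    subst hak
    nlinarith [Nat.zero_le (l * k), Nat.zero_le (k * k), Nat.zero_le k, Nat.zero_le l]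
  omega

theorem lad_cross_R (n a : ℕ) (ha : 1 ≤ a) (p : ℕ × ℕ) (h12 : p.1 < p.2)
    (hR : n ≤ p.1 + p.2 + 1 + a) (hR' : p.1 + p.2 + 1 ≤ n + a) :
    ((lad n a).filter (fun q => X p q)).card + 2 * a ≤ 3 * a * a := by
  set c := n + a - (p.1 + p.2 + 1) with hc
  set c' := p.1 + p.2 + 1 + a - n with hc'
  have hcc : c + c' = 2 * a := by omega
  have hsub : (lad n a).filter (fun q => X p q) ⊆
      ((lad_cross_Tri a).image (fun u => (p.2 - (u.1 + 1), p.2 + (u.2 + 1))) ∪
        (lad_cross_Tri c).image (fun u => (p.1 + (u.1 + 1), p.2 + (u.2 + 1)))) ∪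
      ((lad_cross_Tri a).image (fun u => (p.1 - (u.1 + 1), p.1 + (u.2 + 1))) ∪
        (lad_cross_Tri c').image (fun u => (p.1 - (u.1 + 1), p.2 - (u.2 + 1)))) := by
    intro q hq
    rw [mem_filter] at hq
    obtain ⟨hq1, hq2⟩ := hq
    simp only [lad, mem_filter, mem_product, mem_range] at hq1
    obtain ⟨⟨hn1, hn2⟩, hlt, hor⟩ := hq1
    rw [mem_union, mem_union, mem_union, mem_image, mem_image, mem_image, mem_image]
    unfold X at hq2
    rcases hq2 with ⟨e1, e2, e3⟩ | ⟨e1, e2, e3⟩
    · left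
      rcases hor with h | ⟨h, h'⟩
      · left
        refine ⟨⟨p.2 - q.1 - 1, q.2 - p.2 - 1⟩, lad_cross_mem _ _ _ (by omega), ?_⟩
        apply Prod.ext <;> dsimp only <;> omega
      · right
        refine ⟨⟨q.1 - p.1 - 1, q.2 - p.2 - 1⟩, lad_cross_mem _ _ _ (by omega), ?_⟩
        apply Prod.ext <;> dsimp only <;> omega
    · right
      rcases hor with h | ⟨h, h'⟩
      · left
        refine ⟨⟨p.1 - q.1 - 1, q.2 - p.1 - 1⟩, lad_cross_mem _ _ _ (by omega), ?_⟩
        apply Prod.ext <;> dsimp only <;> omega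
      · right
        refine ⟨⟨p.1 - q.1 - 1, p.2 - q.2 - 1⟩, lad_cross_mem _ _ _ (by omega), ?_⟩
        apply Prod.ext <;> dsimp only <;> omega
  have h1 := card_le_card hsub
  have h2 := card_union_le
    ((lad_cross_Tri a).image (fun u => (p.2 - (u.1 + 1), p.2 + (u.2 + 1))) ∪
        (lad_cross_Tri c).image (fun u => (p.1 + (u.1 + 1), p.2 + (u.2 + 1))))
    ((lad_cross_Tri a).image (fun u => (p.1 - (u.1 + 1), p.1 + (u.2 + 1))) ∪
        (lad_cross_Tri c').image (fun u => (p.1 - (u.1 + 1), p.2 - (u.2 + 1))))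
  have h3 := card_union_le
    ((lad_cross_Tri a).image (fun u => (p.2 - (u.1 + 1), p.2 + (u.2 + 1))))
    ((lad_cross_Tri c).image (fun u => (p.1 + (u.1 + 1), p.2 + (u.2 + 1))))
  have h4 := card_union_le
    ((lad_cross_Tri a).image (fun u => (p.1 - (u.1 + 1), p.1 + (u.2 + 1))))
    ((lad_cross_Tri c').image (fun u => (p.1 - (u.1 + 1), p.2 - (u.2 + 1))))
  have h5 : ((lad_cross_Tri a).image (fun u => (p.2 - (u.1 + 1), p.2 + (u.2 + 1)))).card ≤
    (lad_cross_Tri a).card := card_image_le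
  have h6 : ((lad_cross_Tri c).image (fun u => (p.1 + (u.1 + 1), p.2 + (u.2 + 1)))).card ≤
    (lad_cross_Tri c).card := card_image_le
  have h7 : ((lad_cross_Tri a).image (fun u => (p.1 - (u.1 + 1), p.1 + (u.2 + 1)))).card ≤
    (lad_cross_Tri a).card := card_image_le
  have h8 : ((lad_cross_Tri c').image (fun u => (p.1 - (u.1 + 1), p.2 - (u.2 + 1)))).card ≤
    (lad_cross_Tri c').card := card_image_le
  have t1 := lad_cross_Tri_card a
  have t2 := lad_cross_Tri_card c
  have t3 := lad_cross_Tri_card c'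
  have t4 : c * c + c' * c' ≤ 4 * (a * a) := by
    have : (c + c') * (c + c') = 4 * (a * a) := by rw [hcc]; ring
    nlinarith [Nat.zero_le (c * c')]
  have t5 : 3 * a * a = 3 * (a * a) := by ring
  rw [t5]
  omega

theorem lad_cross (n a : ℕ) (ha : 1 ≤ a) (p : ℕ × ℕ) (hp : p ∈ lad n a) :
    ((lad n a).filter (fun q => X p q)).card + 2 * a ≤ 3 * a * a := by
  simp only [lad, mem_filter] at hp
  obtain ⟨-, h12, h | ⟨h, h'⟩⟩ := hp
  · exact lad_cross_S n a ha p h12 h
  · exact lad_cross_R n a ha p h12 h h'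



theorem lad_card (n a : ℕ) (ha : 1 ≤ a) (hn : 4 * a + 4 ≤ n) :
    (4 * a + 1) * n ≤ 2 * (lad n a).card + (2 * a * a + (2 * a + 1) * (4 * a + 3)) := by
  classical
  let m := (n - 4 * a) / 2
  let F1 : Finset (ℕ × ℕ) := (range (n - a) ×ˢ range a).image (fun p => (p.1, p.1 + p.2 + 1))
  let F2 : Finset (ℕ × ℕ) :=
    (range m ×ˢ range (2 * a + 1)).image (fun p => (a + p.1, n - 1 - (a + p.1) + p.2 - a))
  have hm : 2 * m ≤ n - 4 * a ∧ n - 4 * a ≤ 2 * m + 1 := by
    constructor <;> (simp only [m]; omega)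
  have c1 : F1.card = (n - a) * a := by
    rw [Finset.card_image_of_injOn]
    · simp
    · rintro ⟨x, i⟩ _ ⟨y, j⟩ _ h
      simp only [Prod.mk.injEq] at h
      ext <;> simp <;> omega
  have c2 : F2.card = m * (2 * a + 1) := by
    rw [Finset.card_image_of_injOn]
    · simp
    · rintro ⟨x, i⟩ hx ⟨y, j⟩ hy h
      simp only [Finset.coe_product, Finset.coe_range, Set.mem_prod, Set.mem_Iio] at hx hy
      simp only [Prod.mk.injEq] at h
      ext <;> simp <;> omega
  have s1 : F1 ⊆ lad n a := by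
    intro p hp
    obtain ⟨⟨x, i⟩, hx, rfl⟩ := Finset.mem_image.1 hp
    simp only [Finset.mem_product, Finset.mem_range] at hx
    simp only [lad, Finset.mem_filter, Finset.mem_product, Finset.mem_range]
    omega
  have s2 : F2 ⊆ lad n a := by
    intro p hp
    obtain ⟨⟨x, i⟩, hx, rfl⟩ := Finset.mem_image.1 hp
    simp only [Finset.mem_product, Finset.mem_range] at hx
    simp only [lad, Finset.mem_filter, Finset.mem_product, Finset.mem_range]
    omega
  have dj : Disjoint F1 F2 := by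
    rw [Finset.disjoint_left]
    intro p hp hp2
    obtain ⟨⟨x, i⟩, hx, rfl⟩ := Finset.mem_image.1 hp
    obtain ⟨⟨y, j⟩, hy, h⟩ := Finset.mem_image.1 hp2
    simp only [Finset.mem_product, Finset.mem_range] at hx hy
    simp only [Prod.mk.injEq] at h
    omega
  have hc : F1.card + F2.card ≤ (lad n a).card := by
    rw [← Finset.card_union_of_disjoint dj]
    exact Finset.card_le_card (Finset.union_subset s1 s2)
  rw [c1, c2] at hc
  obtain ⟨k, rfl⟩ : ∃ k, n = 4 * a + k := ⟨n - 4 * a, by omega⟩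
  have e1 : 4 * a + k - a = 3 * a + k := by omega
  have e2 : 4 * a + k - 4 * a = k := by omega
  rw [e2] at hm
  rw [e1] at hc
  have hk : k * (2 * a + 1) ≤ (2 * m + 1) * (2 * a + 1) := Nat.mul_le_mul_right _ hm.2
  nlinarith [hc, hk]


/-! ### Outer drawings -/

/-- The chords `ab` (with `a < b`) and `cd` (with `c < d`) of the convex polygon with corners
`0, 1, …, n-1` cross. -/
def Crosses {n : ℕ} (a b c d : Fin n) : Prop :=
  (a < c ∧ c < b ∧ b < d) ∨ (c < a ∧ a < d ∧ d < b)

/-- The number of edges of `G` which cross the chord `ab`, when the vertices of `G` are the corners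
`0, 1, …, n-1` of a convex polygon (in this order) and the edges are straight. -/
noncomputable def crossings {n : ℕ} (G : SimpleGraph (Fin n)) (a b : Fin n) : ℕ :=
  {p : Fin n × Fin n | p.1 < p.2 ∧ G.Adj p.1 p.2 ∧ Crosses a b p.1 p.2}.ncard

/-- In the straight drawing on the convex polygon `0, 1, …, n-1` every edge of `G` has at most `k`
crossings. -/
def ConvexKPlanar (k : ℕ) {n : ℕ} (G : SimpleGraph (Fin n)) : Prop :=
  ∀ a b : Fin n, a < b → G.Adj a b → crossings G a b ≤ k

/-- `G` is outer `k`-planar: for some (cyclic) order of its vertices along the outer face every edge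
is crossed by at most `k` edges. -/
def OuterKPlanar (k : ℕ) {n : ℕ} (G : SimpleGraph (Fin n)) : Prop :=
  ∃ σ : Equiv.Perm (Fin n), ConvexKPlanar k (G.map σ.toEmbedding)

/-- All sides of the polygon `0, 1, …, n-1` are edges of `G`. -/
def HasSides {n : ℕ} (G : SimpleGraph (Fin n)) : Prop :=
  ∀ a b : Fin n, a < b → (a.val + 1 = b.val ∨ (a.val = 0 ∧ b.val + 1 = n)) → G.Adj a b

/-- `e_k(n)`: the maximum number of edges of an outer `k`-planar graph with `n` vertices. -/
noncomputable def e (k n : ℕ) : ℕ :=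
  sSup {m : ℕ | ∃ G : SimpleGraph (Fin n), OuterKPlanar k G ∧ G.edgeSet.ncard = m}

/-- The same maximum over graphs which have such a drawing in which in addition all sides of the
polygon are edges (then the outer face is bounded by uncrossed edges, so the drawing is
fully-outer `k`-planar). Hence `e' ≤ f ≤ e`, where `f` is the maximum for fully-outer `k`-planar
graphs. -/
noncomputable def e' (k n : ℕ) : ℕ :=
  sSup {m : ℕ | ∃ G : SimpleGraph (Fin n), (∃ σ : Equiv.Perm (Fin n),
    ConvexKPlanar k (G.map σ.toEmbedding) ∧ HasSides (G.map σ.toEmbedding)) ∧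
    G.edgeSet.ncard = m}

open Classical in
/-- Edges of `G` as ordered pairs of naturals. -/
noncomputable def prs {n : ℕ} (G : SimpleGraph (Fin n)) : Finset (ℕ × ℕ) :=
  ((univ : Finset (Fin n × Fin n)).filter (fun p => p.1 < p.2 ∧ G.Adj p.1 p.2)).image
    (fun p => (p.1.val, p.2.val))

theorem val_inj {n : ℕ} : Function.Injective (fun p : Fin n × Fin n => (p.1.val, p.2.val)) := by
  rintro ⟨a, b⟩ ⟨c, d⟩ h
  simp only [Prod.mk.injEq] at h
  exact Prod.ext (Fin.ext h.1) (Fin.ext h.2)

theorem mem_prs {n : ℕ} (G : SimpleGraph (Fin n)) (p : ℕ × ℕ) :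
    p ∈ prs G ↔ ∃ a b : Fin n, a < b ∧ G.Adj a b ∧ p = (a.val, b.val) := by
  classical
  unfold prs
  simp only [mem_image, mem_filter, mem_univ, true_and, Prod.exists]
  constructor
  · rintro ⟨a, b, ⟨h1, h2⟩, h3⟩
    exact ⟨a, b, h1, h2, h3.symm⟩
  · rintro ⟨a, b, h1, h2, h3⟩
    exact ⟨a, b, ⟨h1, h2⟩, h3.symm⟩

theorem edges_eq {n : ℕ} (G : SimpleGraph (Fin n)) : G.edgeSet.ncard = (prs G).card := by
  classical
  unfold prs
  rw [card_image_of_injective _ val_inj]
  have h : G.edgeSet = (fun p : Fin n × Fin n => s(p.1, p.2)) ''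
      ((((univ : Finset (Fin n × Fin n)).filter (fun p => p.1 < p.2 ∧ G.Adj p.1 p.2)) :
        Finset (Fin n × Fin n)) : Set (Fin n × Fin n)) := by
    ext x
    induction x using Sym2.ind with
    | _ a b =>
      simp only [SimpleGraph.mem_edgeSet, coe_filter, mem_univ, true_and, Set.mem_image,
        Set.mem_setOf_eq, Prod.exists, Sym2.eq, Sym2.rel_iff', Prod.mk.injEq, Prod.swap_prod_mk]
      constructor
      · intro hab
        rcases lt_trichotomy a b with h | h | h
        · exact ⟨a, b, ⟨h, hab⟩, Or.inl ⟨rfl, rfl⟩⟩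
        · exact absurd hab (by rw [h]; exact G.loopless.irrefl b)
        · exact ⟨b, a, ⟨h, hab.symm⟩, Or.inr ⟨rfl, rfl⟩⟩
      · rintro ⟨c, d, ⟨_, hcd⟩, h⟩
        rcases h with ⟨rfl, rfl⟩ | ⟨rfl, rfl⟩
        · exact hcd
        · exact hcd.symm
  rw [h, Set.ncard_image_of_injOn, Set.ncard_coe_finset]
  rintro ⟨a, b⟩ h1 ⟨c, d⟩ h2 h3
  simp only [coe_filter, mem_univ, true_and, Set.mem_setOf_eq] at h1 h2
  simp only [Sym2.eq, Sym2.rel_iff', Prod.mk.injEq, Prod.swap_prod_mk] at h3
  rcases h3 with ⟨rfl, rfl⟩ | ⟨rfl, rfl⟩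
  · rfl
  · exact absurd h1.1 (not_lt.mpr h2.1.le)

theorem cross_eq {n : ℕ} (G : SimpleGraph (Fin n)) (a b : Fin n) :
    crossings G a b = ((prs G).filter (fun q => X (a.val, b.val) q)).card := by
  classical
  unfold crossings
  have h : ((prs G).filter (fun q => X (a.val, b.val) q)) =
      (((univ : Finset (Fin n × Fin n)).filter
        (fun p => p.1 < p.2 ∧ G.Adj p.1 p.2 ∧ Crosses a b p.1 p.2)).image
        (fun p => (p.1.val, p.2.val))) := by
    ext q
    simp only [mem_filter, mem_prs, mem_image, mem_univ, true_and, Prod.exists]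
    constructor
    · rintro ⟨⟨c, d, h1, h2, h3⟩, h4⟩
      subst h3
      exact ⟨c, d, ⟨h1, h2, h4⟩, rfl⟩
    · rintro ⟨c, d, ⟨h1, h2, h4⟩, h3⟩
      subst h3
      exact ⟨⟨c, d, h1, h2, rfl⟩, h4⟩
  rw [h, card_image_of_injective _ val_inj, ← Set.ncard_coe_finset]
  congr 1
  ext p
  simp

theorem map_card {n : ℕ} (G : SimpleGraph (Fin n)) (σ : Equiv.Perm (Fin n)) :
    (G.map σ.toEmbedding).edgeSet.ncard = G.edgeSet.ncard := by
  rw [SimpleGraph.edgeSet_map]
  exact Set.ncard_image_of_injective _ (Function.Embedding.injective _)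

theorem upper_nat (t k n : ℕ) (ht : 1 ≤ t) (htk : t * t ≤ 3 * t + 2 * k)
    (G : SimpleGraph (Fin n)) (hG : OuterKPlanar k G) :
    2 * t * G.edgeSet.ncard ≤ (t * t + 3 * t + 2 * k) * n := by
  obtain ⟨σ, hσ⟩ := hG
  rw [← map_card G σ]
  set H := G.map σ.toEmbedding with hH
  rw [edges_eq]
  have h := upper t k ht htk (range n) (prs H) ?_ ?_
  · simpa using h
  · intro p hp
    rw [mem_prs] at hp
    obtain ⟨a, b, h1, h2, rfl⟩ := hp
    exact ⟨h1, by simp, by simp⟩
  · intro p hp
    rw [mem_prs] at hp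
    obtain ⟨a, b, h1, h2, rfl⟩ := hp
    rw [← cross_eq]
    exact hσ a b h1 h2

theorem bdd (k n : ℕ) :
    BddAbove {m : ℕ | ∃ G : SimpleGraph (Fin n), OuterKPlanar k G ∧ G.edgeSet.ncard = m} := by
  refine ⟨(n * n), ?_⟩
  rintro m ⟨G, _, rfl⟩
  rw [edges_eq]
  have : prs G ⊆ range n ×ˢ range n := by
    intro p hp
    rw [mem_prs] at hp
    obtain ⟨a, b, h1, h2, rfl⟩ := hp
    simp
  calc (prs G).card ≤ (range n ×ˢ range n).card := card_le_card this
    _ = n * n := by simp

theorem bdd' (k n : ℕ) :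
    BddAbove {m : ℕ | ∃ G : SimpleGraph (Fin n), (∃ σ : Equiv.Perm (Fin n),
      ConvexKPlanar k (G.map σ.toEmbedding) ∧ HasSides (G.map σ.toEmbedding)) ∧
      G.edgeSet.ncard = m} := by
  obtain ⟨B, hB⟩ := bdd k n
  refine ⟨B, ?_⟩
  rintro m ⟨G, ⟨σ, h1, _⟩, h3⟩
  exact hB ⟨G, ⟨σ, h1⟩, h3⟩

theorem e'_le_e (k n : ℕ) : e' k n ≤ e k n := by
  unfold e' e
  by_cases hne : {m : ℕ | ∃ G : SimpleGraph (Fin n), (∃ σ : Equiv.Perm (Fin n),
      ConvexKPlanar k (G.map σ.toEmbedding) ∧ HasSides (G.map σ.toEmbedding)) ∧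
      G.edgeSet.ncard = m}.Nonempty
  · apply csSup_le_csSup (bdd k n) hne
    rintro m ⟨G, ⟨σ, h1, _⟩, h3⟩
    exact ⟨G, ⟨σ, h1⟩, h3⟩
  · rw [Set.not_nonempty_iff_eq_empty.mp hne]
    simp

theorem e_mem (k n : ℕ) : ∃ G : SimpleGraph (Fin n), OuterKPlanar k G ∧ G.edgeSet.ncard = e k n := by
  have hne : {m : ℕ | ∃ G : SimpleGraph (Fin n), OuterKPlanar k G ∧
      G.edgeSet.ncard = m}.Nonempty := by
    refine ⟨_, ⊥, ⟨Equiv.refl _, ?_⟩, rfl⟩
    intro a b _ h
    simp at h
  exact Nat.sSup_mem hne (bdd k n)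

theorem e_upper (k n : ℕ) (hk : 1 ≤ k) :
    (e k n : ℝ) ≤ (Real.sqrt 2 * Real.sqrt k + 2) * n := by
  obtain ⟨G, hG, hm⟩ := e_mem k n
  set s : ℝ := Real.sqrt 2 * Real.sqrt k with hs
  have hkR : (1 : ℝ) ≤ k := by exact_mod_cast hk
  have hs2 : s * s = 2 * k := by
    rw [hs]
    have h1 : Real.sqrt 2 * Real.sqrt 2 = 2 := Real.mul_self_sqrt (by norm_num)
    have h2 : Real.sqrt k * Real.sqrt k = k := Real.mul_self_sqrt (by positivity)
    calc _ = (Real.sqrt 2 * Real.sqrt 2) * (Real.sqrt k * Real.sqrt k) := by ring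
      _ = _ := by rw [h1, h2]
  have hs0 : 0 ≤ s := by positivity
  have hs1 : 1 ≤ s := by nlinarith
  set t : ℕ := ⌊s⌋₊ with ht
  have ht1 : 1 ≤ t := by rw [ht]; exact Nat.le_floor (by simpa using hs1)
  have hts : (t : ℝ) ≤ s := Nat.floor_le hs0
  have hst : s < t + 1 := Nat.lt_floor_add_one s
  have ht1R : (1 : ℝ) ≤ t := by exact_mod_cast ht1
  have htt : (t : ℝ) * t ≤ 2 * k := by nlinarith
  have httN : t * t ≤ 3 * t + 2 * k := by
    have : t * t ≤ 2 * k := by exact_mod_cast htt
    omega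
  have h := upper_nat t k n ht1 httN G hG
  rw [hm] at h
  have hR : 2 * (t : ℝ) * (e k n : ℝ) ≤ ((t : ℝ) * t + 3 * t + 2 * k) * n := by exact_mod_cast h
  have hn : (0 : ℝ) ≤ n := by positivity
  have key : (t : ℝ) * t + 3 * t + 2 * k ≤ 2 * t * (s + 2) := by nlinarith
  have h3 : 2 * (t : ℝ) * (e k n : ℝ) ≤ 2 * t * ((s + 2) * n) := by
    calc 2 * (t : ℝ) * (e k n : ℝ) ≤ ((t : ℝ) * t + 3 * t + 2 * k) * n := hR
      _ ≤ (2 * t * (s + 2)) * n := mul_le_mul_of_nonneg_right key hn
      _ = _ := by ring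
  exact le_of_mul_le_mul_left h3 (by positivity)

/-- The ladder-type graph as a graph on `Fin n`. -/
def ladG (n a : ℕ) : SimpleGraph (Fin n) where
  Adj x y := (x.val, y.val) ∈ lad n a ∨ (y.val, x.val) ∈ lad n a
  symm := ⟨by intro x y h; exact h.symm⟩
  loopless := ⟨by intro x h; simp [lad] at h⟩

theorem prs_ladG (n a : ℕ) : prs (ladG n a) = lad n a := by
  ext p
  rw [mem_prs]
  constructor
  · rintro ⟨x, y, h1, h2, rfl⟩
    rcases h2 with h2 | h2
    · exact h2
    · exfalso
      have h3 : y.val < x.val := by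
        have := (mem_filter.mp h2).2.1
        exact this
      exact absurd (Fin.lt_def.mp h1) (by omega)
  · intro hp
    have h := mem_filter.mp hp
    have h1 := mem_product.mp h.1
    rw [mem_range, mem_range] at h1
    exact ⟨⟨p.1, h1.1⟩, ⟨p.2, h1.2⟩, h.2.1, Or.inl hp, rfl⟩

theorem ladG_planar (n a k : ℕ) (ha : 1 ≤ a) (hk : 3 * a * a ≤ k + 2 * a) :
    ConvexKPlanar k (ladG n a) := by
  intro x y hxy hadj
  rw [cross_eq, prs_ladG]
  have hp : ((x.val, y.val) : ℕ × ℕ) ∈ lad n a := by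
    rw [← prs_ladG, mem_prs]
    exact ⟨x, y, hxy, hadj, rfl⟩
  have := lad_cross n a ha _ hp
  omega

theorem ladG_sides (n a : ℕ) (ha : 1 ≤ a) : HasSides (ladG n a) := by
  intro x y hxy h
  left
  unfold lad
  rw [mem_filter, mem_product, mem_range, mem_range]
  refine ⟨⟨x.2, y.2⟩, hxy, ?_⟩
  rcases h with h | ⟨h1, h2⟩
  · left
    simp only
    omega
  · right
    simp only
    omega

theorem map_refl' {n : ℕ} (G : SimpleGraph (Fin n)) :
    G.map (Equiv.refl (Fin n)).toEmbedding = G := by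
  ext x y
  rw [SimpleGraph.map_adj]
  constructor
  · rintro ⟨u, v, h1, h2, h3⟩
    have h2' : u = x := h2
    have h3' : v = y := h3
    rw [← h2', ← h3']
    exact h1
  · intro h
    exact ⟨x, y, h, rfl, rfl⟩

theorem e'_ge (k n a : ℕ) (ha : 1 ≤ a) (hk : 3 * a * a ≤ k + 2 * a) (hn : 4 * a + 4 ≤ n) :
    (4 * a + 1) * n ≤ 2 * e' k n + (2 * a * a + (2 * a + 1) * (4 * a + 3)) := by
  have h : (lad n a).card ≤ e' k n := by
    apply le_csSup (bdd' k n)
    refine ⟨ladG n a, ⟨Equiv.refl _, ?_, ?_⟩, ?_⟩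
    · rw [map_refl']
      exact ladG_planar n a k ha hk
    · rw [map_refl']
      exact ladG_sides n a ha
    · rw [edges_eq, prs_ladG]
  have h2 := lad_card n a ha hn
  omega

theorem e'_lower (k n : ℕ) (hk : 1 ≤ k) :
    (2 / Real.sqrt 3 * Real.sqrt k - 1) * n - 20 * k ≤ (e' k n : ℝ) := by
  -- choose the largest `a` with `3a^2 ≤ k + 2a`
  classical
  have hex : ∃ a : ℕ, 1 ≤ a ∧ 3 * a * a ≤ k + 2 * a ∧ k + 2 * (a + 1) < 3 * (a + 1) * (a + 1) := by
    have hfin : ∃ b : ℕ, k + 2 * (b + 1) < 3 * (b + 1) * (b + 1) ∧ 1 ≤ b :=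
      ⟨k, by nlinarith, hk⟩
    let b := Nat.find hfin
    have hb := Nat.find_spec hfin
    refine ⟨b, hb.2, ?_, hb.1⟩
    by_contra hcon
    push Not at hcon
    rcases Nat.lt_or_ge b 2 with h2 | h2
    · have : b = 1 := by have := hb.2; omega
      rw [this] at hcon
      omega
    · have hlt : b - 1 < b := by omega
      apply Nat.find_min hfin hlt
      have h3 : b - 1 + 1 = b := by omega
      rw [h3]
      exact ⟨hcon, by omega⟩
  obtain ⟨a, ha1, ha2, ha3⟩ := hex
  have ha1R : (1 : ℝ) ≤ a := by exact_mod_cast ha1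
  have ha2R : 3 * (a : ℝ) * a ≤ k + 2 * a := by exact_mod_cast ha2
  have ha3R : (k : ℝ) + 2 * (a + 1) < 3 * (a + 1) * (a + 1) := by exact_mod_cast ha3
  have hkR : (1 : ℝ) ≤ k := by exact_mod_cast hk
  have hsk : Real.sqrt k * Real.sqrt k = k := Real.mul_self_sqrt (by positivity)
  have hs3 : Real.sqrt 3 * Real.sqrt 3 = 3 := Real.mul_self_sqrt (by norm_num)
  have hsk1 : 1 ≤ Real.sqrt k := by
    rw [Real.one_le_sqrt]; exact hkR
  have hs30 : 0 < Real.sqrt 3 := by positivity
  have hs3b : 1.73 < Real.sqrt 3 := by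
    rw [Real.lt_sqrt (by norm_num)]; norm_num
  have hs3c : Real.sqrt 3 < 1.74 := by
    rw [Real.sqrt_lt' (by norm_num)]; norm_num
  set u : ℝ := Real.sqrt k / Real.sqrt 3 with hu
  have hu0 : 0 ≤ u := by positivity
  have huu : 3 * (u * u) = k := by
    rw [hu]
    field_simp
    nlinarith
  have hcoef : 2 / Real.sqrt 3 * Real.sqrt k = 2 * u := by
    rw [hu]; ring
  rw [hcoef]
  have hua : u ≤ a + 2 / 3 := by
    by_contra hcon
    push Not at hcon
    nlinarith
  have hek : (0 : ℝ) ≤ (e' k n : ℝ) := by positivity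
  have hn0 : (0 : ℝ) ≤ n := by positivity
  have hak : (a : ℝ) * a ≤ k := by nlinarith
  have hak2 : (a : ℝ) ≤ k := by nlinarith
  rcases Nat.lt_or_ge n (4 * a + 4) with hn | hn
  · have hnR : (n : ℝ) < 4 * a + 4 := by exact_mod_cast hn
    have h1 : (2 * u - 1) * n ≤ 20 * k := by
      have hu1 : 2 * u - 1 ≤ 2 * a + 1 / 3 := by linarith
      calc (2 * u - 1) * n ≤ (2 * a + 1 / 3) * n := mul_le_mul_of_nonneg_right hu1 hn0
        _ ≤ (2 * a + 1 / 3) * (4 * a + 4) := by
            apply mul_le_mul_of_nonneg_left hnR.le; positivity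
        _ ≤ 20 * k := by nlinarith
    linarith
  · have h := e'_ge k n a ha1 ha2 hn
    have hR : (4 * (a : ℝ) + 1) * n ≤
        2 * (e' k n : ℝ) + (2 * a * a + (2 * a + 1) * (4 * a + 3)) := by exact_mod_cast h
    have h1 : (2 * u - 1) * n ≤ (2 * a + 1 / 2) * n :=
      mul_le_mul_of_nonneg_right (by linarith) hn0
    nlinarith

/-- Bounds for the maximum number of edges of outer `k`-planar graphs with `n` vertices. -/
theorem result :
    (∀ k n : ℕ, 1 ≤ k → (e k n : ℝ) ≤ (Real.sqrt 2 * Real.sqrt k + 2) * n) ∧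
    (∀ k n : ℕ, 1 ≤ k →
      (2 / Real.sqrt 3 * Real.sqrt k - 1) * n - 20 * k ≤ (e' k n : ℝ)) ∧
    (∀ k n : ℕ, e' k n ≤ e k n) :=
  ⟨e_upper, e'_lower, e'_le_e⟩

end Pool.Agent.Results.MP_df3d6f_co.SqrtBounds
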